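import Pool.Agent.H11.NY.Targets

/-!
# Module DX of the board ny_modules (MP_9b2842_al)
-/

set_option autoImplicit false

open Equiv (Perm)

namespace Pool.Agent.H59.NY.DX

open Pool.Agent.H11.NY

theorem pf_dx : T_DX := by
  intro L Ω _ _ _ _ ψ hψ Δ hΔ
  classical
  have hmem : ∀ σ : alternatingGroup Ω, σ ∈ (alternatingGroup.ofSubtype Δ).range ↔
      ∀ ω : Ω, ω ∉ Δ → (σ : Perm Ω) ω = ω := by
    intro σ
    rw [alternatingGroup.mem_range_ofSubtype_iff]
    constructor
    · intro h ω hω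
      by_contra hne
      exact hω (h (Equiv.Perm.mem_support.2 hne))
    · intro h ω hω
      by_contra hne
      exact (Equiv.Perm.mem_support.1 hω) (h ω hne)
  have hAA : ⁅(alternatingGroup.ofSubtype Δ).range, (alternatingGroup.ofSubtype Δ).range⁆ =
      (alternatingGroup.ofSubtype Δ).range := by
    rw [MonoidHom.range_eq_map, ← Subgroup.map_commutator, ← commutator_def,
      commutator_alternatingGroup_eq_top (by simpa using hΔ)]
  let S : Set (Subgroup L) := {D | D.map ψ = (alternatingGroup.ofSubtype Δ).range}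
  have hS : S.Nonempty := by
    refine ⟨(alternatingGroup.ofSubtype Δ).range.comap ψ, ?_⟩
    exact Subgroup.map_comap_eq_self_of_surjective hψ _
  obtain ⟨D, hD⟩ := (Set.toFinite S).exists_minimal hS
  have hDS : D.map ψ = (alternatingGroup.ofSubtype Δ).range := hD.1
  have h2 : ⁅D, D⁆ ∈ S := by
    change Subgroup.map ψ ⁅D, D⁆ = _
    rw [Subgroup.map_commutator, hDS, hAA]
  have h3 : ⁅D, D⁆ = D :=
    le_antisymm (Subgroup.commutator_le_self D) (hD.2 h2 (Subgroup.commutator_le_self D))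
  refine ⟨D, ⟨h3, fun d hd => (hmem (ψ d)).1 ?_⟩, fun σ hσ => ?_⟩
  · rw [← hDS]
    exact Subgroup.mem_map_of_mem ψ hd
  · have h4 : σ ∈ D.map ψ := by rw [hDS]; exact (hmem σ).2 hσ
    obtain ⟨d, hd, hdσ⟩ := Subgroup.mem_map.1 h4
    exact ⟨d, hd, hdσ⟩

end Pool.Agent.H59.NY.DX
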