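import Pool.Agent.H11.NY.Targets

/-!
# Module GF of the board ny_modules (MP_9b2842_al)
-/

set_option autoImplicit false

open Equiv (Perm)

namespace Pool.Agent.H59.NY.GF

open Pool.Agent.H11.NY

theorem pf_gf : T_GZ → T_GF := by
  intro hZF G _ _ π hC x₀ B₀ hneg
  classical
  choose L n φ hgood hF hk hx hB using hneg
  have hU : ∀ i₀ : Finset G × ℕ,
      ∀ᶠ i in ((Ultrafilter.of Filter.atTop : Ultrafilter (Finset G × ℕ)) :
        Filter (Finset G × ℕ)), i₀ ≤ i :=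
    fun i₀ => Ultrafilter.of_le _ (Filter.eventually_ge_atTop i₀)
  refine ⟨Finset G × ℕ, Ultrafilter.of Filter.atTop, fun i => n i.1 i.2,
    fun i y => if h : y ∈ L i.1 i.2 then (φ i.1 i.2 ⟨y, h⟩ : Perm (Fin (n i.1 i.2))) else 1,
    ?_, ?_, ?_⟩
  · intro y z
    filter_upwards [hU ({y, z}, 0)] with i hi
    have hi1 : ({y, z} : Finset G) ⊆ i.1 := hi.1
    have hy : y ∈ L i.1 i.2 := hF i.1 i.2 y (hi1 (by simp))
    have hz : z ∈ L i.1 i.2 := hF i.1 i.2 z (hi1 (by simp))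
    have hyz : y * z ∈ L i.1 i.2 := (L i.1 i.2).mul_mem hy hz
    rw [dif_pos hy, dif_pos hz, dif_pos hyz]
    have : (⟨y * z, hyz⟩ : L i.1 i.2) = ⟨y, hy⟩ * ⟨z, hz⟩ := rfl
    rw [this, map_mul]
    rfl
  · intro y hy1
    obtain ⟨F, hFk⟩ := hZF G π hC y hy1
    filter_upwards [hU (insert y F, 0)] with i hi
    have hi1 : insert y F ⊆ i.1 := hi.1
    have hy : y ∈ L i.1 i.2 := hF i.1 i.2 y (hi1 (Finset.mem_insert_self y F))
    rw [dif_pos hy]
    intro h1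
    refine hFk (L i.1 i.2) (n i.1 i.2) (φ i.1 i.2) (hgood i.1 i.2)
      (fun u hu => hF i.1 i.2 u (hi1 (Finset.mem_insert_of_mem hu))) hy ?_
    exact Subtype.ext h1
  · refine Filter.Eventually.of_forall fun i => ?_
    have h0 : x₀ ∈ L i.1 i.2 := hx i.1 i.2
    have h1 : (if h : x₀ ∈ L i.1 i.2 then (φ i.1 i.2 ⟨x₀, h⟩ : Perm (Fin (n i.1 i.2))) else 1) =
        (φ i.1 i.2 ⟨x₀, h0⟩ : Perm (Fin (n i.1 i.2))) := dif_pos h0
    have h2 := hB i.1 i.2
    beta_reduce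
    rw [h1]
    exact h2

end Pool.Agent.H59.NY.GF
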